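import Pool.Agent.Y163.Double

/-!
# Corners of algebras of operators containing the image of a finite group
-/

set_option autoImplicit false

namespace Pool.Agent.J4H62.GC

open Module Finset Pool.Agent.Y163

variable {K : Type*} [Field K] {V : Type*} [AddCommGroup V] [Module K V]

section corner

variable (π : End K V)

/-- the inclusion of the range -/
abbrev io : LinearMap.range π →ₗ[K] V := (LinearMap.range π).subtype

/-- the projection onto the range -/
abbrev pp : V →ₗ[K] LinearMap.range π := π.rangeRestrict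

lemma io_pp : io π ∘ₗ pp π = π := LinearMap.ext fun _ => rfl

lemma io_pp_apply (v : V) : (pp π v : V) = π v := rfl

variable {π}

lemma pp_io_apply (h : π * π = π) (x : LinearMap.range π) : pp π (x : V) = x := by
  obtain ⟨_, v, rfl⟩ := x
  apply Subtype.ext
  change π (π v) = π v
  exact LinearMap.congr_fun h v

lemma pi_io_apply (h : π * π = π) (x : LinearMap.range π) : π (x : V) = x := by
  have := congrArg Subtype.val (pp_io_apply h x)
  exact this

/-- the corner of an algebra -/
def corner (h : π * π = π) (A : Subalgebra K (End K V)) (hA : π ∈ A) :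
    Subalgebra K (End K (LinearMap.range π)) where
  carrier := {f | io π ∘ₗ f ∘ₗ pp π ∈ A}
  mul_mem' := by
    intro f g hf hg
    have e1 : io π ∘ₗ (f * g) ∘ₗ pp π = (io π ∘ₗ f ∘ₗ pp π) * (io π ∘ₗ g ∘ₗ pp π) := by
      apply LinearMap.ext
      intro v
      change ((f (g (pp π v)) : LinearMap.range π) : V) = (f (pp π (g (pp π v) : V)) : V)
      rw [pp_io_apply h]
    change io π ∘ₗ (f * g) ∘ₗ pp π ∈ A
    rw [e1]
    exact A.mul_mem hf hg
  add_mem' := by
    intro f g hf hg
    have e1 : io π ∘ₗ (f + g) ∘ₗ pp π = (io π ∘ₗ f ∘ₗ pp π) + (io π ∘ₗ g ∘ₗ pp π) := rfl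
    change io π ∘ₗ (f + g) ∘ₗ pp π ∈ A
    rw [e1]
    exact A.add_mem hf hg
  algebraMap_mem' := by
    intro r
    have e1 : io π ∘ₗ (algebraMap K (End K (LinearMap.range π)) r) ∘ₗ pp π = r • π := by
      apply LinearMap.ext
      intro v
      rfl
    change io π ∘ₗ (algebraMap K (End K (LinearMap.range π)) r) ∘ₗ pp π ∈ A
    rw [e1]
    exact A.smul_mem hA r

lemma mem_corner {h : π * π = π} {A : Subalgebra K (End K V)} {hA : π ∈ A}
    {f : End K (LinearMap.range π)} : f ∈ corner h A hA ↔ io π ∘ₗ f ∘ₗ pp π ∈ A := Iff.rfl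

/-- the restriction of a representation to the range of a commuting projector -/
def rres {Γ : Type*} [Monoid Γ] (ρ : Γ →* End K V) (h : π * π = π) (hc : ∀ σ, π * ρ σ = ρ σ * π) :
    Γ →* End K (LinearMap.range π) where
  toFun σ := pp π ∘ₗ ρ σ ∘ₗ io π
  map_one' := by
    apply LinearMap.ext
    intro x
    change pp π (ρ 1 (x : V)) = x
    rw [map_one]
    exact pp_io_apply h x
  map_mul' σ τ := by
    apply LinearMap.ext
    intro x
    change pp π (ρ (σ * τ) (x : V)) = pp π (ρ σ (π (ρ τ (x : V))))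
    have h1 : π (ρ τ (x : V)) = ρ τ (x : V) := by
      have := LinearMap.congr_fun (hc τ) (x : V)
      simp only [Module.End.mul_apply] at this
      rw [this, pi_io_apply h]
    rw [h1, map_mul]
    rfl

lemma rres_apply {Γ : Type*} [Monoid Γ] (ρ : Γ →* End K V) (h : π * π = π)
    (hc : ∀ σ, π * ρ σ = ρ σ * π) (σ : Γ) (x : LinearMap.range π) :
    ((rres ρ h hc σ x : LinearMap.range π) : V) = ρ σ (x : V) := by
  change π (ρ σ (x : V)) = ρ σ (x : V)
  have := LinearMap.congr_fun (hc σ) (x : V)
  simp only [Module.End.mul_apply] at this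
  rw [this, pi_io_apply h]

end corner

variable [Module.Finite K V]

/-- the commutant of the restriction is a part of the commutant -/
lemma finrank_comm_rres {Γ : Type*} [Group Γ] (ρ : Γ →* End K V) {π : End K V} (h : π * π = π)
    (hc : ∀ σ, π * ρ σ = ρ σ * π) :
    finrank K (comm (rres ρ h hc)) ≤ finrank K (comm ρ) := by
  let F : comm (rres ρ h hc) →ₗ[K] comm ρ :=
    { toFun := fun g => ⟨io π ∘ₗ (g : End K (LinearMap.range π)) ∘ₗ pp π, by
        intro σ
        apply LinearMap.ext
        intro v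
        change (((g : End K (LinearMap.range π)) (pp π (ρ σ v)) : LinearMap.range π) : V) =
          ρ σ (((g : End K (LinearMap.range π)) (pp π v) : LinearMap.range π) : V)
        have e1 : pp π (ρ σ v) = rres ρ h hc σ (pp π v) := by
          apply Subtype.ext
          rw [rres_apply]
          have := LinearMap.congr_fun (hc σ) v
          exact this
        have e2 := LinearMap.congr_fun (g.2 σ) (pp π v)
        simp only [Module.End.mul_apply] at e2
        rw [e1, e2, rres_apply]⟩
      map_add' := fun _ _ => rfl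
      map_smul' := fun _ _ => rfl }
  refine LinearMap.finrank_le_finrank_of_injective (f := F) ?_
  rintro ⟨g, hg⟩ ⟨g', hg'⟩ h0
  apply Subtype.ext
  apply LinearMap.ext
  intro x
  apply Subtype.ext
  have h1 := LinearMap.congr_fun (congrArg Subtype.val h0) (x : V)
  change ((g (pp π (x : V)) : LinearMap.range π) : V) = ((g' (pp π (x : V)) : LinearMap.range π) : V) at h1
  rwa [pp_io_apply h] at h1

/-- the rank of the trace form of the corner -/
lemma nu_corner {π : End K V} (h : π * π = π) (A : Subalgebra K (End K V)) (hA : π ∈ A)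
    (P Q : Submodule K (V →ₗ[K] V)) (θ θ' : End K V)
    (hP : ∀ x ∈ A, θ * x ∈ P) (hQ : ∀ x ∈ A, x * θ' ∈ Q) (hθ : ∀ v, θ' (θ (π v)) = π v) :
    nu (corner h A hA) ≤ mu P Q 1 1 := by
  let F : Subalgebra.toSubmodule (corner h A hA) →ₗ[K] P :=
    { toFun := fun f => ⟨θ * (io π ∘ₗ (f : End K (LinearMap.range π)) ∘ₗ pp π), hP _ f.2⟩
      map_add' := fun f g => Subtype.ext (by
        change θ * (io π ∘ₗ ((f : End K (LinearMap.range π)) + (g : End K (LinearMap.range π))) ∘ₗ
          pp π) = θ * (io π ∘ₗ (f : End K (LinearMap.range π)) ∘ₗ pp π) +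
          θ * (io π ∘ₗ (g : End K (LinearMap.range π)) ∘ₗ pp π)
        rw [← mul_add]; rfl)
      map_smul' := fun c f => Subtype.ext (by
        change θ * (io π ∘ₗ (c • (f : End K (LinearMap.range π))) ∘ₗ pp π) =
          c • (θ * (io π ∘ₗ (f : End K (LinearMap.range π)) ∘ₗ pp π))
        rw [← mul_smul_comm]; rfl) }
  let G : Subalgebra.toSubmodule (corner h A hA) →ₗ[K] Q :=
    { toFun := fun f => ⟨(io π ∘ₗ (f : End K (LinearMap.range π)) ∘ₗ pp π) * θ', hQ _ f.2⟩
      map_add' := fun f g => Subtype.ext (by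
        change (io π ∘ₗ ((f : End K (LinearMap.range π)) + (g : End K (LinearMap.range π))) ∘ₗ
          pp π) * θ' = (io π ∘ₗ (f : End K (LinearMap.range π)) ∘ₗ pp π) * θ' +
          (io π ∘ₗ (g : End K (LinearMap.range π)) ∘ₗ pp π) * θ'
        rw [← add_mul]; rfl)
      map_smul' := fun c f => Subtype.ext (by
        change (io π ∘ₗ (c • (f : End K (LinearMap.range π))) ∘ₗ pp π) * θ' =
          c • ((io π ∘ₗ (f : End K (LinearMap.range π)) ∘ₗ pp π) * θ')
        rw [← smul_mul_assoc]; rfl) }
  have key : bt (Subalgebra.toSubmodule (corner h A hA)) (Subalgebra.toSubmodule (corner h A hA)) 1 1 =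
      G.dualMap ∘ₗ bt P Q 1 1 ∘ₗ F := by
    apply LinearMap.ext
    intro f
    apply LinearMap.ext
    intro g
    have e1 : (G.dualMap ∘ₗ bt P Q 1 1 ∘ₗ F) f g = LinearMap.trace K V
        (((io π ∘ₗ (g : End K (LinearMap.range π)) ∘ₗ pp π) * θ') ∘ₗ (1 : End K V) ∘ₗ
          (θ * (io π ∘ₗ (f : End K (LinearMap.range π)) ∘ₗ pp π)) ∘ₗ (1 : End K V)) := rfl
    have e2 : ((io π ∘ₗ (g : End K (LinearMap.range π)) ∘ₗ pp π) * θ') ∘ₗ (1 : End K V) ∘ₗ
          (θ * (io π ∘ₗ (f : End K (LinearMap.range π)) ∘ₗ pp π)) ∘ₗ (1 : End K V) =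
        io π ∘ₗ (((g : End K (LinearMap.range π)) ∘ₗ (f : End K (LinearMap.range π))) ∘ₗ pp π) := by
      apply LinearMap.ext
      intro v
      change (((g : End K (LinearMap.range π)) (pp π (θ' (θ
        (((f : End K (LinearMap.range π)) (pp π v) : LinearMap.range π) : V))))) : V) =
        (((g : End K (LinearMap.range π)) ((f : End K (LinearMap.range π)) (pp π v)) :
          LinearMap.range π) : V)
      have e3 : ∀ x : LinearMap.range π, θ' (θ (x : V)) = x := by
        intro x
        have := hθ (x : V)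
        rwa [pi_io_apply h] at this
      rw [e3, pp_io_apply h]
    rw [e1, e2, LinearMap.trace_comp_comm']
    change LinearMap.trace K (LinearMap.range π) ((g : End K (LinearMap.range π)) ∘ₗ
      (1 : End K (LinearMap.range π)) ∘ₗ (f : End K (LinearMap.range π)) ∘ₗ
      (1 : End K (LinearMap.range π))) = _
    congr 1
    apply LinearMap.ext
    intro x
    change (g : End K (LinearMap.range π)) ((f : End K (LinearMap.range π)) x) =
      (g : End K (LinearMap.range π)) ((f : End K (LinearMap.range π)) (pp π (x : V)))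
    rw [pp_io_apply h]
  have h2 := finrank_range_comp_comp_le (K := K) (A := Subalgebra.toSubmodule (corner h A hA)) (B := P)
    (C := Module.Dual K Q) (D := Module.Dual K (Subalgebra.toSubmodule (corner h A hA)))
    F (bt P Q 1 1) G.dualMap
  rw [nu, mu, key]
  exact h2

variable [IsAlgClosed K] [CharZero K]

/-- **An algebra containing the image of a finite group has large corners if the commutant of the group
is small.** -/
theorem sq_le_mu {Γ : Type*} [Group Γ] [Finite Γ] (ρ : Γ →* End K V) (A : Subalgebra K (End K V))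
    (hρ : ∀ σ, ρ σ ∈ A) {π : End K V} (h : π * π = π) (hA : π ∈ A) (hc : ∀ σ, π * ρ σ = ρ σ * π)
    (P Q : Submodule K (V →ₗ[K] V)) (θ θ' : End K V)
    (hP : ∀ x ∈ A, θ * x ∈ P) (hQ : ∀ x ∈ A, x * θ' ∈ Q) (hθ : ∀ v, θ' (θ (π v)) = π v) :
    finrank K (LinearMap.range π) ^ 2 ≤ mu P Q 1 1 * finrank K (comm ρ) := by
  have h1 := sq_le_nu_mul (rres ρ h hc) (corner h A hA) (fun σ => by
    rw [mem_corner]
    have e1 : io π ∘ₗ (rres ρ h hc σ) ∘ₗ pp π = ρ σ * π := by
      apply LinearMap.ext
      intro v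
      change ((rres ρ h hc σ (pp π v) : LinearMap.range π) : V) = ρ σ (π v)
      rw [rres_apply]
      rfl
    rw [e1]
    exact A.mul_mem (hρ σ) hA)
  exact h1.trans (Nat.mul_le_mul (nu_corner h A hA P Q θ θ' hP hQ hθ) (finrank_comm_rres ρ h hc))

end Pool.Agent.J4H62.GC
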