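import Pool.Agent.J4H47.GC.Low
import Pool.Agent.J4H62.GC.Corner

/-!
# The part of one degree (project GC, piece CR)
-/

set_option autoImplicit false

open CategoryTheory AlgebraicGeometry Finset Module

universe u v

namespace Pool.Agent.J4H62.GC

open Pool.Agent.H914 VarClass Obj WeilCohomology Pool.Agent.H447 Pool.Agent.Y163
  Pool.Agent.W534

theorem t_CR : Pool.Agent.J4H47.GC.S_CR.{u, v} := by
  intro k _ 𝒱 ops W _ X n e r θ θ' hθ hθ' hπ hinv
  have h1 := sq_le_mu (rho W X n) (KAlg W (pw X n)) (rho_mem n)
    (π := proj (W.isInternal (pw X n)) e) (proj_mul_proj (W.isInternal (pw X n)) e) hπ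
    (fun σ => by
      have hd := deg0_of_mem (rho_mem (W := W) (X := X) n σ)
      apply gr_ext (W.isInternal (pw X n))
      intro i a ha
      rw [Module.End.mul_apply, Module.End.mul_apply]
      by_cases hie : i = e
      · subst hie
        rw [proj_same _ ha, proj_same _ (hd i a ha)]
      · rw [proj_ne _ ha hie, proj_ne _ (hd i a ha) hie, map_zero])
    (KOp W (pw X n) (pw X n) r) (KOp W (pw X n) (pw X n) (-r)) θ θ'
    (fun x hx => KOp.cast (KOp.comp hθ hx) (by ring))
    (fun x hx => KOp.cast (KOp.comp hx hθ') (by ring))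
    (fun v => hinv _ (proj_mem _ e v))
  rw [range_proj] at h1
  exact h1.trans (Nat.mul_le_mul_left _ (finrank_comm_le n))

end Pool.Agent.J4H62.GC
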