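import Pool.Agent.J4H47.GC.Low2

/-!
# The Poincaré polynomial of a product (project GC, piece PP)
-/

set_option autoImplicit false

open CategoryTheory AlgebraicGeometry Finset Module

universe u v

namespace Pool.Agent.J4H62.GC

open Pool.Agent.H914 VarClass Obj WeilCohomology Pool.Agent.H447 Pool.Agent.Y163
  Pool.Agent.W534 Pool.Agent.J4H47.GC

variable {k : Type u} [Field k] {𝒱 : VarClass k} {ops : CycleOps 𝒱}
  {W : WeilCohomology.{u, v} ops} {X Y : 𝒱.Obj}

/-- the Betti numbers from a basis of homogeneous elements -/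
theorem finrank_gr {ι : Type v} [Fintype ι] [DecidableEq ι] (B : HBasis W X ι) (j : ℕ) :
    finrank W.K (W.gr X j) = (univ.filter fun i => B.deg i = j).card := by
  have h1 := trace_proj (W.isInternal X) j
  have h2 : LinearMap.trace W.K (W.H X) (proj (W.isInternal X) j) =
      ∑ i, if B.deg i = j then (1 : W.K) else 0 := by
    rw [LinearMap.trace_eq_matrix_trace W.K B.b, Matrix.trace]
    refine Finset.sum_congr rfl fun i _ => ?_
    rw [Matrix.diag_apply, LinearMap.toMatrix_apply]
    split_ifs with h
    · rw [proj_same _ (h ▸ B.mem i), Basis.repr_self, Finsupp.single_eq_same]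
    · rw [proj_ne _ (B.mem i) h, map_zero, Finsupp.zero_apply]
  rw [h1, Finset.sum_boole] at h2
  exact_mod_cast h2

/-- the Poincaré polynomial from a basis of homogeneous elements -/
theorem poincare_eq {ι : Type v} [Fintype ι] (B : HBasis W X ι) (t : ℝ) :
    poincare W X t = ∑ i, t ^ B.deg i := by
  classical
  have hdeg : ∀ i, B.deg i ∈ range (2 * X.dim + 1) := by
    intro i
    rw [mem_range]
    by_contra h
    have h1 := B.mem i
    rw [W.gr_eq_bot X _ (by omega), Submodule.mem_bot] at h1
    exact B.b.ne_zero i h1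
  unfold poincare
  rw [← Finset.sum_fiberwise_of_maps_to (s := univ) (t := range (2 * X.dim + 1)) (g := B.deg)
    (fun i _ => hdeg i) (fun i => t ^ B.deg i)]
  refine Finset.sum_congr rfl fun j _ => ?_
  rw [finrank_gr B j, Finset.sum_congr rfl (g := fun _ => t ^ j) ?_, Finset.sum_const, nsmul_eq_mul]
  intro i hi
  rw [(mem_filter.1 hi).2]

/-- the product basis -/
noncomputable def prodB {ι κ : Type v} (B : HBasis W X ι) (C : HBasis W Y κ) :
    HBasis W (X.prod Y) (ι × κ) where
  b := (B.b.tensorProduct C.b).map (kappa W X Y)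
  deg := fun p => B.deg p.1 + C.deg p.2
  mem := fun p => by
    rw [Basis.map_apply, Basis.tensorProduct_apply', kappa_tmul]
    exact W.mul_mem (W.map_mem _ (B.mem _)) (W.map_mem _ (C.mem _))

theorem t_PP : S_PP.{u, v} := by
  intro k _ 𝒱 ops W X Y t
  obtain ⟨ι, hι, ⟨B⟩⟩ := exists_hbasis W X
  obtain ⟨κ, hκ, ⟨C⟩⟩ := exists_hbasis W Y
  have hι' : Fintype ι := Fintype.ofFinite ι
  have hκ' : Fintype κ := Fintype.ofFinite κ
  rw [poincare_eq (prodB B C), poincare_eq B, poincare_eq C, Fintype.sum_prod_type,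
    Finset.sum_mul_sum]
  refine Finset.sum_congr rfl fun i _ => Finset.sum_congr rfl fun j _ => ?_
  exact pow_add _ _ _

end Pool.Agent.J4H62.GC
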